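import Mathlib

set_option autoImplicit false
open MeasureTheory Set Topology

namespace Pool.Agent.Lib.MP_483d01_an

/-- A finite measure on the circle that is invariant under an irrational rotation is invariant under
all rotations. -/
theorem isAddLeftInvariant_of_irrational (α : ℝ) (hα : Irrational α)
    (ν : Measure (AddCircle (1 : ℝ))) [IsFiniteMeasure ν]
    (h : ν.map (fun z => (α : AddCircle (1 : ℝ)) + z) = ν) : ν.IsAddLeftInvariant := by
  have hmeas : ∀ t : AddCircle (1 : ℝ), Measurable (fun z : AddCircle (1 : ℝ) => t + z) :=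
    fun t => measurable_const_add t
  have hd : DenseRange (· • (α : AddCircle (1 : ℝ)) : ℤ → AddCircle (1 : ℝ)) := by
    have := (AddCircle.denseRange_zsmul_coe_iff (a := α) (p := 1)).2 (by simpa using hα)
    exact this
  -- invariance under natural multiples
  have hnat : ∀ n : ℕ, ν.map (fun z => n • (α : AddCircle (1 : ℝ)) + z) = ν := by
    intro n
    induction n with
    | zero => simp
    | succ n ih =>
      have : (fun z : AddCircle (1 : ℝ) => (n + 1) • (α : AddCircle (1 : ℝ)) + z)
          = (fun z => (α : AddCircle (1 : ℝ)) + z) ∘ (fun z => n • (α : AddCircle (1 : ℝ)) + z) := by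
        funext z
        simp only [Function.comp, add_smul, one_smul]
        abel
      rw [this, ← Measure.map_map (hmeas _) (hmeas _), ih, h]
  have hneg : ∀ n : ℕ, ν.map (fun z => (-(n • (α : AddCircle (1 : ℝ)))) + z) = ν := by
    intro n
    conv_lhs => rw [← hnat n]
    rw [Measure.map_map (hmeas _) (hmeas _)]
    have : ((fun z => -(n • (α : AddCircle (1 : ℝ))) + z) ∘ fun z => n • (α : AddCircle (1 : ℝ)) + z)
        = id := by
      funext z; simp [Function.comp]
    rw [this, Measure.map_id]
  have hint : ∀ n : ℤ, ν.map (fun z => n • (α : AddCircle (1 : ℝ)) + z) = ν := by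
    intro n
    obtain ⟨m, rfl | rfl⟩ := n.eq_nat_or_neg
    · simpa using hnat m
    · simpa using hneg m
  refine ⟨fun t => ?_⟩
  refine ext_of_forall_integral_eq_of_IsFiniteMeasure fun f => ?_
  rw [integral_map (hmeas t).aemeasurable (f.continuous.aestronglyMeasurable)]
  -- F(t) = ∫ f(t+z)
  have hcont : Continuous fun t : AddCircle (1 : ℝ) => ∫ z, f (t + z) ∂ν := by
    refine continuous_of_dominated (bound := fun _ => ‖f‖) ?_ ?_ ?_ ?_
    · intro t
      exact (f.continuous.comp (continuous_const.add continuous_id)).aestronglyMeasurable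
    · intro t
      exact Filter.Eventually.of_forall fun z => f.norm_coe_le_norm _
    · exact integrable_const _
    · exact Filter.Eventually.of_forall fun z => f.continuous.comp (continuous_id.add continuous_const)
  have hconst : (fun t : AddCircle (1 : ℝ) => ∫ z, f (t + z) ∂ν) = fun _ => ∫ z, f z ∂ν := by
    refine hd.equalizer hcont continuous_const ?_
    funext n
    simp only [Function.comp]
    conv_rhs => rw [← hint n]
    rw [integral_map (hmeas _).aemeasurable (f.continuous.aestronglyMeasurable)]
  exact congrFun hconst t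

theorem eq_of_irrational_rotation (α : ℝ) (hα : Irrational α)
    (ν ν' : Measure (AddCircle (1 : ℝ))) [IsFiniteMeasure ν] [IsFiniteMeasure ν']
    (h : ν.map (fun z => (α : AddCircle (1 : ℝ)) + z) = ν)
    (h' : ν'.map (fun z => (α : AddCircle (1 : ℝ)) + z) = ν')
    (hm : ν univ = ν' univ) : ν = ν' := by
  have i1 := isAddLeftInvariant_of_irrational α hα ν h
  have i2 := isAddLeftInvariant_of_irrational α hα ν' h'
  have e1 := Measure.addHaarMeasure_unique ν (⊤ : TopologicalSpace.PositiveCompacts (AddCircle (1 : ℝ)))
  have e2 := Measure.addHaarMeasure_unique ν' (⊤ : TopologicalSpace.PositiveCompacts (AddCircle (1 : ℝ)))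
  rw [e1, e2]
  simp [hm]

end Pool.Agent.Lib.MP_483d01_an
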