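import Mathlib
import Pool.Agent.Lib.MP_483d01_an.Rot

set_option autoImplicit false
open MeasureTheory Set Topology

namespace Pool.Agent.Lib.MP_483d01_an

/-- the permutation `0 ↦ 2, 1 ↦ 0, 2 ↦ 3, 3 ↦ 1` -/
def perm4 : Equiv.Perm (Fin 4) where
  toFun := ![2, 0, 3, 1]
  invFun := ![1, 3, 0, 2]
  left_inv := by intro i; fin_cases i <;> rfl
  right_inv := by intro i; fin_cases i <;> rfl

/-- The interval exchange map exactly as in the frozen statement. -/
noncomputable def T (d : ℕ) (π : Equiv.Perm (Fin d)) (v : Fin d → ℝ) : ℝ → ℝ :=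
  fun x : ℝ => x + ∑ j : Fin d,
          (Set.Ico (∑ i ∈ (Finset.univ : Finset (Fin d)).filter (fun i : Fin d => i < j), v i)
             ((∑ i ∈ (Finset.univ : Finset (Fin d)).filter (fun i : Fin d => i < j), v i) + v j)).indicator
            (fun _ : ℝ => (∑ i ∈ (Finset.univ : Finset (Fin d)).filter (fun i : Fin d => π i < π j), v i) -
                      ∑ i ∈ (Finset.univ : Finset (Fin d)).filter (fun i : Fin d => i < j), v i) x

theorem T_eq (v : Fin 4 → ℝ) (x : ℝ) : T 4 perm4 v x = x +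
    ((Ico 0 (v 0)).indicator (fun _ => v 1 + v 3) x +
     (Ico (v 0) (v 0 + v 1)).indicator (fun _ => - v 0) x +
     (Ico (v 0 + v 1) (v 0 + v 1 + v 2)).indicator (fun _ => v 3) x +
     (Ico (v 0 + v 1 + v 2) (v 0 + v 1 + v 2 + v 3)).indicator (fun _ => -(v 0 + v 2)) x) := by
  have h0 : (Finset.univ : Finset (Fin 4)).filter (fun i : Fin 4 => i < 0) = ∅ := by decide
  have h1 : (Finset.univ : Finset (Fin 4)).filter (fun i : Fin 4 => i < 1) = {0} := by decide
  have h2 : (Finset.univ : Finset (Fin 4)).filter (fun i : Fin 4 => i < 2) = {0, 1} := by decide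
  have h3 : (Finset.univ : Finset (Fin 4)).filter (fun i : Fin 4 => i < 3) = {0, 1, 2} := by decide
  have k0 : (Finset.univ : Finset (Fin 4)).filter (fun i : Fin 4 => perm4 i < perm4 0) = {1, 3} := by decide
  have k1 : (Finset.univ : Finset (Fin 4)).filter (fun i : Fin 4 => perm4 i < perm4 1) = ∅ := by decide
  have k2 : (Finset.univ : Finset (Fin 4)).filter (fun i : Fin 4 => perm4 i < perm4 2) = {0, 1, 3} := by decide
  have k3 : (Finset.univ : Finset (Fin 4)).filter (fun i : Fin 4 => perm4 i < perm4 3) = {1} := by decide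
  unfold T
  rw [Fin.sum_univ_four]
  rw [h0, h1, h2, h3, k0, k1, k2, k3]
  have s2 : ∑ i ∈ ({0, 1} : Finset (Fin 4)), v i = v 0 + v 1 := by
    rw [Finset.sum_pair (by decide)]
  have s3 : ∑ i ∈ ({0, 1, 2} : Finset (Fin 4)), v i = v 0 + v 1 + v 2 := by
    rw [Finset.sum_insert (by decide), Finset.sum_pair (by decide)]; ring
  have t0 : ∑ i ∈ ({1, 3} : Finset (Fin 4)), v i = v 1 + v 3 := by
    rw [Finset.sum_pair (by decide)]
  have t2 : ∑ i ∈ ({0, 1, 3} : Finset (Fin 4)), v i = v 0 + v 1 + v 3 := by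
    rw [Finset.sum_insert (by decide), Finset.sum_pair (by decide)]; ring
  rw [s2, s3, t0, t2]
  simp only [Finset.sum_empty, Finset.sum_singleton, sub_zero, zero_sub, zero_add]
  have e1 : v 0 + v 1 + v 3 - (v 0 + v 1) = v 3 := by ring
  have e2 : v 1 - (v 0 + v 1 + v 2) = -(v 0 + v 2) := by ring
  rw [e1, e2]

theorem sum4 (v : Fin 4 → ℝ) : ∑ i : Fin 4, v i = v 0 + v 1 + v 2 + v 3 := by
  rw [Fin.sum_univ_four]

theorem measurable_T (v : Fin 4 → ℝ) : Measurable (T 4 perm4 v) := by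
  have : T 4 perm4 v = fun x => x +
    ((Ico 0 (v 0)).indicator (fun _ => v 1 + v 3) x +
     (Ico (v 0) (v 0 + v 1)).indicator (fun _ => - v 0) x +
     (Ico (v 0 + v 1) (v 0 + v 1 + v 2)).indicator (fun _ => v 3) x +
     (Ico (v 0 + v 1 + v 2) (v 0 + v 1 + v 2 + v 3)).indicator (fun _ => -(v 0 + v 2)) x) := by
    funext x; exact T_eq v x
  rw [this]
  fun_prop (disch := exact measurableSet_Ico)



theorem T_piece0 (v : Fin 4 → ℝ) (h1 : 0 < v 1) (h2 : 0 < v 2) (x : ℝ)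
    (hx0 : 0 ≤ x) (hx1 : x < v 0) : T 4 perm4 v x = x + (v 1 + v 3) := by
  rw [T_eq, indicator_of_mem (show x ∈ Ico 0 (v 0) from ⟨hx0, hx1⟩),
    indicator_of_notMem (show x ∉ Ico (v 0) (v 0 + v 1) from fun h => by linarith [h.1]),
    indicator_of_notMem (show x ∉ Ico (v 0 + v 1) (v 0 + v 1 + v 2) from fun h => by linarith [h.1]),
    indicator_of_notMem (show x ∉ Ico (v 0 + v 1 + v 2) (v 0 + v 1 + v 2 + v 3) from
      fun h => by linarith [h.1])]
  ring

theorem T_piece1 (v : Fin 4 → ℝ) (h2 : 0 < v 2) (x : ℝ)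
    (hx0 : v 0 ≤ x) (hx1 : x < v 0 + v 1) : T 4 perm4 v x = x - v 0 := by
  rw [T_eq, indicator_of_notMem (show x ∉ Ico 0 (v 0) from fun h => by linarith [h.2]),
    indicator_of_mem (show x ∈ Ico (v 0) (v 0 + v 1) from ⟨hx0, hx1⟩),
    indicator_of_notMem (show x ∉ Ico (v 0 + v 1) (v 0 + v 1 + v 2) from fun h => by linarith [h.1]),
    indicator_of_notMem (show x ∉ Ico (v 0 + v 1 + v 2) (v 0 + v 1 + v 2 + v 3) from
      fun h => by linarith [h.1])]
  ring

theorem T_piece2 (v : Fin 4 → ℝ) (h1 : 0 < v 1) (x : ℝ)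
    (hx0 : v 0 + v 1 ≤ x) (hx1 : x < v 0 + v 1 + v 2) : T 4 perm4 v x = x + v 3 := by
  rw [T_eq, indicator_of_notMem (show x ∉ Ico 0 (v 0) from fun h => by linarith [h.2]),
    indicator_of_notMem (show x ∉ Ico (v 0) (v 0 + v 1) from fun h => by linarith [h.2]),
    indicator_of_mem (show x ∈ Ico (v 0 + v 1) (v 0 + v 1 + v 2) from ⟨hx0, hx1⟩),
    indicator_of_notMem (show x ∉ Ico (v 0 + v 1 + v 2) (v 0 + v 1 + v 2 + v 3) from
      fun h => by linarith [h.1])]
  ring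

theorem T_piece3 (v : Fin 4 → ℝ) (h1 : 0 < v 1) (h2 : 0 < v 2) (x : ℝ)
    (hx0 : v 0 + v 1 + v 2 ≤ x) (hx1 : x < v 0 + v 1 + v 2 + v 3) :
    T 4 perm4 v x = x - (v 0 + v 2) := by
  rw [T_eq, indicator_of_notMem (show x ∉ Ico 0 (v 0) from fun h => by linarith [h.2]),
    indicator_of_notMem (show x ∉ Ico (v 0) (v 0 + v 1) from fun h => by linarith [h.2]),
    indicator_of_notMem (show x ∉ Ico (v 0 + v 1) (v 0 + v 1 + v 2) from fun h => by linarith [h.2]),
    indicator_of_mem (show x ∈ Ico (v 0 + v 1 + v 2) (v 0 + v 1 + v 2 + v 3) from ⟨hx0, hx1⟩)]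
  ring

end Pool.Agent.Lib.MP_483d01_an
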