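import Mathlib
import Pool.Agent.Lib.MP_483d01_an.Basic

set_option autoImplicit false
open MeasureTheory Set Topology

namespace Pool.Agent.Lib.MP_483d01_an

/-- Invariant probability measures of the exchange with length vector `v`. -/
def Inv (v : Fin 4 → ℝ) (μ : Measure ℝ) : Prop :=
  IsProbabilityMeasure μ ∧ μ ((Ico (0 : ℝ) (∑ i : Fin 4, v i))ᶜ) = 0 ∧ μ.map (T 4 perm4 v) = μ

/-- the base point -/
def base (α : ℝ) : Fin 4 → ℝ := ![1 - α, 1 - α, α, α]

section
variable (α : ℝ)

theorem base0 : base α 0 = 1 - α := rfl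
theorem base1 : base α 1 = 1 - α := rfl
theorem base2 : base α 2 = α := rfl
theorem base3 : base α 3 = α := rfl

theorem sum_base : ∑ i : Fin 4, base α i = 2 := by
  rw [sum4, base0, base1, base2, base3]; ring

/-- quotient map to the circle -/
def q : ℝ → AddCircle (1 : ℝ) := fun x => (x : AddCircle (1 : ℝ))

theorem measurable_q : Measurable q := AddCircle.measurable_mk'

/-- section of the quotient map with values in `[1-α, 2-α)`. -/
noncomputable def g : AddCircle (1 : ℝ) → ℝ := fun z => (AddCircle.equivIco 1 (1 - α) z : ℝ)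

theorem measurable_g : Measurable (g α) :=
  measurable_subtype_coe.comp (AddCircle.measurableEquivIco 1 (1 - α)).measurable

theorem g_mem (z : AddCircle (1 : ℝ)) : 1 - α ≤ g α z ∧ g α z < 2 - α := by
  have h := (AddCircle.equivIco 1 (1 - α) z).2
  refine ⟨h.1, ?_⟩
  have := h.2
  unfold g
  linarith

theorem g_q (x : ℝ) (h1 : 1 - α ≤ x) (h2 : x < 2 - α) : g α (q x) = x := by
  unfold g q
  rw [AddCircle.equivIco_coe_of_mem]
  exact ⟨h1, by linarith⟩

theorem q_g (z : AddCircle (1 : ℝ)) : q (g α z) = z := by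
  unfold g q
  exact AddCircle.coe_equivIco

theorem q_add_one (x : ℝ) : q (x + 1) = q x := by
  unfold q; exact AddCircle.coe_add_period 1 x

theorem q_sub_one (x : ℝ) : q (x - 1) = q x := by
  have := q_add_one (x - 1)
  rw [← this]; congr 1; ring

theorem q_add (x y : ℝ) : q (x + y) = q x + q y := AddCircle.coe_add (p := 1) x y

variable {α}
variable (h0 : 0 < α) (h1 : α < 1)
include h0 h1

theorem T_A (x : ℝ) (hx1 : 1 - α ≤ x) (hx2 : x < 2 - α) :
    q (T 4 perm4 (base α) x) = q α + q x ∧
      ((0 ≤ T 4 perm4 (base α) x ∧ T 4 perm4 (base α) x < 1 - α) ∨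
       (2 - α ≤ T 4 perm4 (base α) x ∧ T 4 perm4 (base α) x < 2)) := by
  by_cases hx : x < 2 - 2 * α
  · rw [T_piece1 (base α) (by rw [base2]; exact h0) x (by rw [base0]; exact hx1)
      (by rw [base0, base1]; linarith)]
    rw [base0]
    refine ⟨?_, Or.inl ⟨by linarith, by linarith⟩⟩
    rw [← q_add, ← q_sub_one (α + x)]
    congr 1; ring
  · push Not at hx
    rw [T_piece2 (base α) (by rw [base1]; linarith) x (by rw [base0, base1]; linarith)
      (by rw [base0, base1, base2]; linarith)]
    rw [base3]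
    refine ⟨?_, Or.inr ⟨by linarith, by linarith⟩⟩
    rw [← q_add]
    congr 1; ring

theorem T_B (x : ℝ) (hx : (0 ≤ x ∧ x < 1 - α) ∨ (2 - α ≤ x ∧ x < 2)) :
    q (T 4 perm4 (base α) x) = q x ∧
      (1 - α ≤ T 4 perm4 (base α) x ∧ T 4 perm4 (base α) x < 2 - α) := by
  rcases hx with hx | hx
  · rw [T_piece0 (base α) (by rw [base1]; linarith) (by rw [base2]; linarith) x hx.1
      (by rw [base0]; exact hx.2)]
    rw [base1, base3]
    refine ⟨?_, ⟨by linarith, by linarith⟩⟩
    rw [← q_add_one x]
    congr 1; ring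
  · rw [T_piece3 (base α) (by rw [base1]; linarith) (by rw [base2]; linarith) x
      (by rw [base0, base1, base2]; linarith) (by rw [base0, base1, base2, base3]; linarith)]
    rw [base0, base2]
    refine ⟨?_, ⟨by linarith, by linarith⟩⟩
    rw [← q_sub_one x]
    congr 1; ring

theorem TT_g (z : AddCircle (1 : ℝ)) :
    T 4 perm4 (base α) (T 4 perm4 (base α) (g α z)) = g α (q α + z) := by
  obtain ⟨hg1, hg2⟩ := g_mem α z
  obtain ⟨a1, a2⟩ := T_A h0 h1 (g α z) hg1 hg2
  obtain ⟨b1, b2, b3⟩ := T_B h0 h1 _ a2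
  rw [← g_q α _ b2 b3, b1, a1, q_g]

theorem unique_aux (hα : Irrational α) (μ : Measure ℝ) (hμ : Inv (base α) μ) :
    μ = (((2 : ENNReal)⁻¹ • (volume : Measure (AddCircle (1 : ℝ)))).map (g α)) +
      (((2 : ENNReal)⁻¹ • (volume : Measure (AddCircle (1 : ℝ)))).map (g α)).map
        (T 4 perm4 (base α)) := by
  obtain ⟨hp, hs, hinv⟩ := hμ
  rw [sum_base] at hs
  set S := T 4 perm4 (base α) with hS
  have hSm : Measurable S := measurable_T _
  set A : Set ℝ := Ico (1 - α) (2 - α) with hA
  set B : Set ℝ := Ico (0 : ℝ) (1 - α) ∪ Ico (2 - α) 2 with hB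
  have hAm : MeasurableSet A := measurableSet_Ico
  have hBm : MeasurableSet B := measurableSet_Ico.union measurableSet_Ico
  have hAB : Disjoint A B := by
    rw [Set.disjoint_left]
    rintro x ⟨ha1, ha2⟩ (hb | hb)
    · exact absurd hb.2 (not_lt.2 ha1)
    · exact absurd ha2 (not_lt.2 hb.1)
  have hcov : A ∪ B = Ico (0 : ℝ) 2 := by
    ext x
    simp only [hA, hB, mem_union, mem_Ico]
    constructor
    · rintro (h | h | h)
      · exact ⟨by linarith [h.1], by linarith [h.2]⟩
      · exact ⟨by linarith [h.1], by linarith [h.2]⟩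
      · exact ⟨by linarith [h.1], by linarith [h.2]⟩
    · intro h
      by_cases c1 : x < 1 - α
      · exact Or.inr (Or.inl ⟨h.1, c1⟩)
      · by_cases c2 : x < 2 - α
        · exact Or.inl ⟨not_lt.1 c1, c2⟩
        · exact Or.inr (Or.inr ⟨not_lt.1 c2, h.2⟩)
  -- decomposition of μ
  have hdec : μ = μ.restrict A + μ.restrict B := by
    rw [← Measure.restrict_union hAB hBm, hcov]
    symm
    rw [Measure.restrict_eq_self_of_ae_mem]
    rw [ae_iff]
    exact hs
  -- S maps A to B, B to A
  have hSA : ∀ x ∈ A, S x ∈ B := by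
    intro x hx
    rcases (T_A h0 h1 x hx.1 hx.2).2 with h | h
    · exact Or.inl h
    · exact Or.inr h
  have hSB : ∀ x ∈ B, S x ∈ A := by
    intro x hx
    have := (T_B h0 h1 x hx).2
    exact this
  have hqA : ∀ x ∈ A, q (S x) = q α + q x := fun x hx => (T_A h0 h1 x hx.1 hx.2).1
  have hqB : ∀ x ∈ B, q (S x) = q x := fun x hx => (T_B h0 h1 x hx).1
  -- push-forward of restrictions
  have mapA : (μ.restrict A).map S = μ.restrict B := by
    ext E hE
    rw [Measure.map_apply hSm hE, Measure.restrict_apply (hSm hE), Measure.restrict_apply hE]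
    have : μ (E ∩ B) = μ (S ⁻¹' (E ∩ B)) := by
      conv_lhs => rw [← hinv]
      rw [Measure.map_apply hSm (hE.inter hBm)]
    rw [this]
    apply measure_congr
    have hae : ∀ᵐ x ∂μ, x ∈ Ico (0 : ℝ) 2 := by rw [ae_iff]; exact hs
    filter_upwards [hae] with x hx
    rw [← hcov] at hx
    apply propext
    constructor
    · rintro ⟨h1', h2'⟩
      exact ⟨h1', hSA x h2'⟩
    · rintro ⟨h1', h2'⟩
      refine ⟨h1', ?_⟩
      rcases hx with hx | hx
      · exact hx
      · exact absurd h2' (Set.disjoint_left.1 hAB (hSB x hx))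
  have mapB : (μ.restrict B).map S = μ.restrict A := by
    ext E hE
    rw [Measure.map_apply hSm hE, Measure.restrict_apply (hSm hE), Measure.restrict_apply hE]
    have : μ (E ∩ A) = μ (S ⁻¹' (E ∩ A)) := by
      conv_lhs => rw [← hinv]
      rw [Measure.map_apply hSm (hE.inter hAm)]
    rw [this]
    apply measure_congr
    have hae : ∀ᵐ x ∂μ, x ∈ Ico (0 : ℝ) 2 := by rw [ae_iff]; exact hs
    filter_upwards [hae] with x hx
    rw [← hcov] at hx
    apply propext
    constructor
    · rintro ⟨h1', h2'⟩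
      exact ⟨h1', hSB x h2'⟩
    · rintro ⟨h1', h2'⟩
      refine ⟨h1', ?_⟩
      rcases hx with hx | hx
      · exact absurd (hSA x hx) (Set.disjoint_left.1 hAB h2')
      · exact hx
  set ν : Measure (AddCircle (1 : ℝ)) := (μ.restrict A).map q with hν
  have hνB : (μ.restrict B).map q = ν := by
    -- q ∘ S = q on B
    have e1 : (μ.restrict B).map q = (μ.restrict B).map (q ∘ S) := by
      apply Measure.map_congr
      filter_upwards [ae_restrict_mem hBm] with x hx
      exact (hqB x hx).symm
    rw [e1, ← Measure.map_map measurable_q hSm, mapB]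
  have hνinv : ν.map (fun z => (α : AddCircle (1 : ℝ)) + z) = ν := by
    rw [hν, Measure.map_map (measurable_const_add _) measurable_q]
    have e1 : (μ.restrict A).map ((fun z => (α : AddCircle (1 : ℝ)) + z) ∘ q)
        = (μ.restrict A).map (q ∘ S) := by
      apply Measure.map_congr
      filter_upwards [ae_restrict_mem hAm] with x hx
      exact (hqA x hx).symm
    rw [e1, ← Measure.map_map measurable_q hSm, mapA, hνB]
  have hmass : μ A = μ B := by
    have := congrArg (fun m : Measure ℝ => m univ) mapA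
    simp only [Measure.map_apply hSm MeasurableSet.univ, preimage_univ,
      Measure.restrict_apply_univ] at this
    exact this
  have hhalf : μ A = 2⁻¹ := by
    have h1' : μ A + μ B = 1 := by
      rw [← measure_union hAB hBm, hcov]
      have h2' := prob_compl_eq_one_sub (μ := μ) (measurableSet_Ico (a := (0 : ℝ)) (b := 2))
      rw [hs] at h2'
      have h3' : 1 ≤ μ (Ico 0 2) := tsub_eq_zero_iff_le.1 h2'.symm
      exact le_antisymm prob_le_one h3'
    rw [← hmass, ← two_mul] at h1'
    exact ENNReal.eq_inv_of_mul_eq_one_left (by rwa [mul_comm])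
  have hνeq : ν = (2 : ENNReal)⁻¹ • (volume : Measure (AddCircle (1 : ℝ))) := by
    have : IsFiniteMeasure ((2 : ENNReal)⁻¹ • (volume : Measure (AddCircle (1 : ℝ)))) :=
      Measure.smul_finite _ (by simp)
    refine eq_of_irrational_rotation α hα ν _ hνinv ?_ ?_
    · rw [Measure.map_smul]
      rw [map_add_left_eq_self]
    · rw [hν, Measure.map_apply measurable_q MeasurableSet.univ]
      simp only [preimage_univ, Measure.restrict_apply_univ, Measure.smul_apply,
        smul_eq_mul, AddCircle.measure_univ, ENNReal.ofReal_one, mul_one]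
      exact hhalf
  have hA' : μ.restrict A = ν.map (g α) := by
    rw [hν, Measure.map_map (measurable_g α) measurable_q]
    have : (μ.restrict A).map (g α ∘ q) = (μ.restrict A).map id := by
      apply Measure.map_congr
      filter_upwards [ae_restrict_mem hAm] with x hx
      exact g_q α x hx.1 hx.2
    rw [this, Measure.map_id]
  rw [← hνeq, ← hA', mapA]
  exact hdec

theorem exists_aux : Inv (base α)
    ((((2 : ENNReal)⁻¹ • (volume : Measure (AddCircle (1 : ℝ)))).map (g α)) +
      (((2 : ENNReal)⁻¹ • (volume : Measure (AddCircle (1 : ℝ)))).map (g α)).map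
        (T 4 perm4 (base α))) := by
  set ν : Measure (AddCircle (1 : ℝ)) := (2 : ENNReal)⁻¹ • (volume : Measure (AddCircle (1 : ℝ)))
    with hν
  have hνu : ν univ = 2⁻¹ := by
    rw [hν]; simp only [Measure.smul_apply,
        smul_eq_mul, AddCircle.measure_univ, ENNReal.ofReal_one, mul_one]
  have hνinv : ν.map (fun z => q α + z) = ν := by
    rw [hν, Measure.map_smul, map_add_left_eq_self]
  set S := T 4 perm4 (base α) with hS
  have hSm : Measurable S := measurable_T _
  have hgm := measurable_g α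
  refine ⟨⟨?_⟩, ?_, ?_⟩
  · rw [Measure.add_apply, Measure.map_apply hSm MeasurableSet.univ, preimage_univ,
      Measure.map_apply hgm MeasurableSet.univ, preimage_univ, hνu]
    exact ENNReal.inv_two_add_inv_two
  · rw [sum_base, Measure.add_apply, Measure.map_apply hSm measurableSet_Ico.compl,
      Measure.map_apply hgm measurableSet_Ico.compl,
      Measure.map_apply hgm (hSm measurableSet_Ico.compl)]
    have e1 : g α ⁻¹' (Ico (0 : ℝ) 2)ᶜ = ∅ := by
      rw [Set.eq_empty_iff_forall_notMem]
      intro z hz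
      obtain ⟨a, b⟩ := g_mem α z
      exact hz ⟨by linarith, by linarith⟩
    have e2 : g α ⁻¹' (S ⁻¹' (Ico (0 : ℝ) 2)ᶜ) = ∅ := by
      rw [Set.eq_empty_iff_forall_notMem]
      intro z hz
      obtain ⟨a, b⟩ := g_mem α z
      rcases (T_A h0 h1 (g α z) a b).2 with ⟨c, d⟩ | ⟨c, d⟩
      · exact hz ⟨by linarith, by linarith⟩
      · exact hz ⟨by linarith, by linarith⟩
    rw [e1, e2]; simp
  · rw [Measure.map_add _ _ hSm, Measure.map_map hSm hSm, Measure.map_map (hSm.comp hSm) hgm]
    have : (S ∘ S) ∘ g α = g α ∘ (fun z => q α + z) := by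
      funext z
      exact TT_g h0 h1 z
    rw [this, ← Measure.map_map hgm (measurable_const_add _), hνinv, add_comm]

theorem ue_base (hα : Irrational α) : ∃! μ : Measure ℝ, Inv (base α) μ :=
  ⟨_, exists_aux h0 h1, fun μ hμ => unique_aux h0 h1 hα μ hμ⟩

end

/-- two distinct periodic orbits of period two give two invariant measures -/
theorem not_ue (v : Fin 4 → ℝ) (x y : ℝ) (hxy : x ≠ y)
    (hx : x ∈ Ico (0 : ℝ) (∑ i : Fin 4, v i)) (hy : y ∈ Ico (0 : ℝ) (∑ i : Fin 4, v i))
    (hTx : T 4 perm4 v x ∈ Ico (0 : ℝ) (∑ i : Fin 4, v i))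
    (hTy : T 4 perm4 v y ∈ Ico (0 : ℝ) (∑ i : Fin 4, v i))
    (hx2 : T 4 perm4 v (T 4 perm4 v x) = x) (hy2 : T 4 perm4 v (T 4 perm4 v y) = y)
    (hne : T 4 perm4 v y ≠ x) : ¬ ∃! μ : Measure ℝ, Inv v μ := by
  have key : ∀ p : ℝ, p ∈ Ico (0 : ℝ) (∑ i : Fin 4, v i) →
      T 4 perm4 v p ∈ Ico (0 : ℝ) (∑ i : Fin 4, v i) → T 4 perm4 v (T 4 perm4 v p) = p →
      Inv v ((2 : ENNReal)⁻¹ • (Measure.dirac p + Measure.dirac (T 4 perm4 v p))) := by
    intro p hp hTp hp2
    refine ⟨⟨?_⟩, ?_, ?_⟩
    · simp only [Measure.smul_apply, Measure.add_apply, measure_univ, smul_eq_mul]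
      rw [mul_add, mul_one]
      exact ENNReal.inv_two_add_inv_two
    · rw [Measure.smul_apply, Measure.add_apply, Measure.dirac_apply' _ measurableSet_Ico.compl,
        Measure.dirac_apply' _ measurableSet_Ico.compl]
      rw [indicator_of_notMem (by simpa using hp), indicator_of_notMem (by simpa using hTp)]
      simp
    · rw [Measure.map_smul, Measure.map_add _ _ (measurable_T v), Measure.map_dirac' (measurable_T v),
        Measure.map_dirac' (measurable_T v), hp2, add_comm]
  rintro ⟨μ, _, hu⟩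
  have e1 := hu _ (key x hx hTx hx2)
  have e2 := hu _ (key y hy hTy hy2)
  have e3 := e1.trans e2.symm
  have e4 := congrArg (fun m : Measure ℝ => m {x}) e3
  simp only [Measure.smul_apply, Measure.add_apply, smul_eq_mul] at e4
  rw [Measure.dirac_apply' _ (measurableSet_singleton x), Measure.dirac_apply' _ (measurableSet_singleton x),
    Measure.dirac_apply' _ (measurableSet_singleton x), Measure.dirac_apply' _ (measurableSet_singleton x)] at e4
  rw [indicator_of_mem (mem_singleton x), indicator_of_notMem (a := y) (by simpa using hxy.symm),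
    indicator_of_notMem (a := T 4 perm4 v y) (by simpa using hne)] at e4
  simp only [Pi.one_apply, add_zero, mul_zero, mul_add, mul_one] at e4
  have : (2 : ENNReal)⁻¹ = 0 := by
    have h5 := le_of_eq e4
    exact le_antisymm (le_trans le_self_add h5) zero_le
  simp at this

end Pool.Agent.Lib.MP_483d01_an
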